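import Pool.Agent.T9h92.RothbergerTree

/-!
Lexicographic orders on the tree, and countable cofinality of all families of nodes.
-/

set_option linter.unusedSectionVars false

open Set

namespace Pool.Agent.T9h92.Roth

/-- a strict total order on the naturals with least element `0` -/
structure Good (ρ : ℕ → ℕ → Prop) : Prop where
  irrefl : ∀ a, ¬ ρ a a
  trans : ∀ a b c, ρ a b → ρ b c → ρ a c
  tri : ∀ a b, a ≠ b → ρ a b ∨ ρ b a
  zero : ∀ a, a ≠ 0 → ρ 0 a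

theorem Good.not_zero {ρ : ℕ → ℕ → Prop} (h : Good ρ) (a : ℕ) : ¬ ρ a 0 := by
  intro h1
  by_cases ha : a = 0
  · subst ha; exact h.irrefl _ h1
  · exact h.irrefl _ (h.trans _ _ _ h1 (h.zero a ha))

/-- the two orders: the usual one, and the one reversing the positive integers -/
def rho (i : Bool) (a b : ℕ) : Prop :=
  if i then a ≠ b ∧ (a = 0 ∨ (b ≠ 0 ∧ b < a)) else a < b

theorem good_rho (i : Bool) : Good (rho i) := by
  cases i
  · refine ⟨?_, ?_, ?_, ?_⟩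
    · intro a; simp [rho]
    · intro a b c; simp only [rho, Bool.false_eq_true, if_false]; omega
    · intro a b; simp only [rho, Bool.false_eq_true, if_false]; omega
    · intro a; simp only [rho, Bool.false_eq_true, if_false]; omega
  · refine ⟨?_, ?_, ?_, ?_⟩
    · intro a; simp [rho]
    · intro a b c; simp only [rho, if_true]; omega
    · intro a b; simp only [rho, if_true]; omega
    · intro a ha
      simp only [rho, if_true]
      exact ⟨fun h => ha h.symm, Or.inl trivial⟩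

section Lex

variable {W : Type} [LinearOrder W] [WellFoundedLT W] [OrderBot W]

/-- strict lexicographic comparison -/
def Lt (ρ : ℕ → ℕ → Prop) (u t : W → ℕ) : Prop :=
  ∃ ξ, (∀ η < ξ, u η = t η) ∧ ρ (u ξ) (t ξ)

variable {ρ : ℕ → ℕ → Prop}

theorem Lt.irrefl (hρ : Good ρ) (u : W → ℕ) : ¬ Lt ρ u u := by
  rintro ⟨ξ, _, h⟩
  exact hρ.irrefl _ h

theorem Lt.trans (hρ : Good ρ) {u t v : W → ℕ} (h1 : Lt ρ u t) (h2 : Lt ρ t v) : Lt ρ u v := by
  obtain ⟨ξ, h1, h1'⟩ := h1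
  obtain ⟨ζ, h2, h2'⟩ := h2
  rcases lt_trichotomy ξ ζ with h | h | h
  · refine ⟨ξ, fun η hη => (h1 η hη).trans (h2 η (hη.trans h)), ?_⟩
    rw [← h2 ξ h]; exact h1'
  · subst h
    exact ⟨ξ, fun η hη => (h1 η hη).trans (h2 η hη), hρ.trans _ _ _ h1' h2'⟩
  · refine ⟨ζ, fun η hη => (h1 η (hη.trans h)).trans (h2 η hη), ?_⟩
    rw [h1 ζ h]; exact h2'

theorem first_diff {u t : W → ℕ} (h : u ≠ t) : ∃ ξ, (∀ η < ξ, u η = t η) ∧ u ξ ≠ t ξ := by
  have hne : {ξ : W | u ξ ≠ t ξ}.Nonempty := by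
    by_contra hcon
    apply h
    funext ξ
    by_contra hξ
    exact hcon ⟨ξ, hξ⟩
  refine ⟨wellFounded_lt.min _ hne, fun η hη => ?_, wellFounded_lt.min_mem _ hne⟩
  by_contra hcon
  exact wellFounded_lt.not_lt_min _ (show η ∈ {ξ : W | u ξ ≠ t ξ} from hcon) hη

theorem first_diff_below {u t : W → ℕ} {δ : W} (h : ¬ ∀ ξ < δ, u ξ = t ξ) :
    ∃ ξ < δ, (∀ η < ξ, u η = t η) ∧ u ξ ≠ t ξ := by
  have hne : u ≠ t := by
    rintro rfl; exact h fun _ _ => rfl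
  obtain ⟨ξ, h1, h2⟩ := first_diff hne
  refine ⟨ξ, ?_, h1, h2⟩
  by_contra hcon
  exact h fun η hη => h1 η (hη.trans_le (not_lt.1 hcon))

theorem diff_unique {u t : W → ℕ} {ξ ζ : W} (h1 : ∀ η < ξ, u η = t η) (h1' : u ξ ≠ t ξ)
    (h2 : ∀ η < ζ, u η = t η) (h2' : u ζ ≠ t ζ) : ξ = ζ := by
  rcases lt_trichotomy ξ ζ with h | h | h
  · exact absurd (h2 _ h) h1'
  · exact h
  · exact absurd (h1 _ h) h2'

theorem Lt.total (hρ : Good ρ) {u t : W → ℕ} (h : u ≠ t) : Lt ρ u t ∨ Lt ρ t u := by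
  obtain ⟨ξ, h1, h2⟩ := first_diff h
  rcases hρ.tri _ _ h2 with h3 | h3
  · left; exact ⟨ξ, h1, h3⟩
  · right; exact ⟨ξ, fun η hη => (h1 η hη).symm, h3⟩

theorem Lt.asymm (hρ : Good ρ) {u t : W → ℕ} (h1 : Lt ρ u t) (h2 : Lt ρ t u) : False :=
  Lt.irrefl hρ _ (Lt.trans hρ h1 h2)

end Lex

section Cof

variable {W : Type} [LinearOrder W] [WellFoundedLT W] [OrderBot W] [Uncountable W]
variable {ρ : ℕ → ℕ → Prop} (A : ATree W)

/-- nodes of height at most `δ` -/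
theorem ATree.countable_le (hc : ∀ a : W, (Iio a).Countable) (A : ATree W) (δ : W) :
    {t | A.ht t ≤ δ}.Countable := by
  have h1 : {t | A.ht t ≤ δ} ⊆ ⋃ γ ∈ insert δ (Iio δ), {t | A.ht t = γ} := by
    intro t ht
    refine mem_biUnion (x := A.ht t) ?_ rfl
    rcases (show A.ht t ≤ δ from ht).eq_or_lt with h | h
    · left; exact h
    · right; exact h
  exact (((hc δ).insert δ).biUnion fun γ _ => A.level γ).mono h1

/-- truncation of nodes -/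
noncomputable def ATree.tr (A : ATree W) (δ : W) (hδ : ⊥ < δ) (t : A.T) : A.T :=
  (A.trunc t δ hδ).choose

theorem ATree.ht_tr (A : ATree W) (δ : W) (hδ : ⊥ < δ) (t : A.T) :
    A.ht (A.tr δ hδ t) = min δ (A.ht t) := (A.trunc t δ hδ).choose_spec.1

theorem ATree.fn_tr (A : ATree W) (δ : W) (hδ : ⊥ < δ) (t : A.T) :
    ∀ ξ < δ, A.fn (A.tr δ hδ t) ξ = A.fn t ξ := (A.trunc t δ hδ).choose_spec.2

theorem ATree.eq_of_tr (A : ATree W) {δ : W} (hδ : ⊥ < δ) {t t' : A.T}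
    (h : A.tr δ hδ t = A.tr δ hδ t') : ∀ ξ < δ, A.fn t ξ = A.fn t' ξ := by
  intro ξ hξ
  rw [← A.fn_tr δ hδ t ξ hξ, ← A.fn_tr δ hδ t' ξ hξ, h]

theorem ATree.eq_of_agree (A : ATree W) {δ : W} {t t' : A.T}
    (h : ∀ ξ < δ, A.fn t ξ = A.fn t' ξ) (ht : A.ht t < δ) : t = t' := by
  have h0 : A.fn t' (A.ht t) = 0 := by
    rw [← h _ ht]; exact (A.zero _ _).2 le_rfl
  have h1 : A.ht t' ≤ A.ht t := (A.zero _ _).1 h0
  apply A.inj
  funext ξ
  by_cases hξ : ξ < δ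
  · exact h ξ hξ
  · have h2 : A.ht t ≤ ξ := ht.le.trans (not_lt.1 hξ)
    rw [(A.zero _ _).2 h2, (A.zero _ _).2 (h1.trans h2)]

theorem ATree.tr_of_le (A : ATree W) {δ : W} (hδ : ⊥ < δ) {t : A.T} (h : A.ht t ≤ δ) :
    A.tr δ hδ t = t := by
  apply A.inj
  funext ξ
  by_cases hξ : ξ < δ
  · exact A.fn_tr δ hδ t ξ hξ
  · have h1 := A.ht_tr δ hδ t
    rw [min_eq_right h] at h1
    have h2 : A.ht t ≤ ξ := h.trans (not_lt.1 hξ)
    rw [(A.zero _ _).2 h2, (A.zero _ _).2 (h1.le.trans h2)]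

/-- every family of nodes has a countable cofinal subfamily -/
theorem exists_countable_cofinal (hc : ∀ a : W, (Iio a).Countable) (hρ : Good ρ)
    (S : Set A.T) : ∃ C ⊆ S, C.Countable ∧
      ∀ t ∈ S, ∃ c ∈ C, t = c ∨ Lt ρ (A.fn t) (A.fn c) := by
  by_contra hcon
  push Not at hcon
  have step : ∀ δ : W, ⊥ < δ → ∃ h : A.T, h ∈ S ∧ δ ≤ A.ht h ∧
      ∀ t ∈ S, ∀ ξ < δ, (∀ η < ξ, A.fn h η = A.fn t η) → ¬ ρ (A.fn h ξ) (A.fn t ξ) := by
    intro δ hδ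
    obtain ⟨C, hCS, hC⟩ := (surjOn_image (A.tr δ hδ) S).exists_bijOn_subset
    have hCc : C.Countable := by
      have h1 : (A.tr δ hδ '' S).Countable := by
        refine (A.countable_le hc δ).mono ?_
        rintro _ ⟨t, _, rfl⟩
        show A.ht _ ≤ δ
        rw [A.ht_tr]; exact min_le_left _ _
      exact hC.mapsTo.countable_of_injOn hC.injOn h1
    obtain ⟨h, hS, hh⟩ := hcon C hCS hCc
    have hgt : ∀ c ∈ C, Lt ρ (A.fn c) (A.fn h) := by
      intro c hcC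
      obtain ⟨h1, h2⟩ := hh c hcC
      rcases Lt.total hρ (fun h3 => h1 (A.inj h3)) with h3 | h3
      · exact absurd h3 h2
      · exact h3
    have hrep : ∀ t ∈ S, ∃ c ∈ C, ∀ ξ < δ, A.fn c ξ = A.fn t ξ := by
      intro t ht
      obtain ⟨c, hcC, hc'⟩ := hC.surjOn (mem_image_of_mem _ ht)
      exact ⟨c, hcC, A.eq_of_tr hδ hc'⟩
    refine ⟨h, hS, ?_, ?_⟩
    · by_contra hlt
      obtain ⟨c, hcC, hc'⟩ := hrep h hS
      have := A.eq_of_agree (fun ξ hξ => (hc' ξ hξ).symm) (not_le.1 hlt)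
      subst this
      exact Lt.irrefl hρ _ (hgt h hcC)
    · intro t ht ξ hξ h1 h2
      obtain ⟨c, hcC, hc'⟩ := hrep t ht
      refine Lt.asymm hρ (hgt c hcC) ⟨ξ, fun η hη => ?_, ?_⟩
      · rw [h1 η hη, hc' η (hη.trans hξ)]
      · rw [hc' ξ hξ]; exact h2
  have : Nonempty A.T := by
    obtain ⟨b, hb⟩ := exists_gt_countable hc (countable_singleton (⊥ : W))
    obtain ⟨t, -⟩ := A.exists_ht b (hb ⊥ rfl)
    exact ⟨t⟩
  choose! h hS hht hmax using step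
  have hagree : ∀ δ δ', ⊥ < δ → δ ≤ δ' → ∀ ξ < δ, A.fn (h δ) ξ = A.fn (h δ') ξ := by
    intro δ δ' hδ hle
    by_contra hne
    obtain ⟨ξ, hξ, h1, h2⟩ := first_diff_below hne
    rcases hρ.tri _ _ h2 with h3 | h3
    · exact hmax δ hδ _ (hS δ' (hδ.trans_le hle)) ξ hξ h1 h3
    · exact hmax δ' (hδ.trans_le hle) _ (hS δ hδ) ξ (hξ.trans_le hle)
        (fun η hη => (h1 η hη).symm) h3
  apply A.no_branch
  have hnx : ∀ ξ : W, ∃ δ, ξ < δ := fun ξ => by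
    obtain ⟨b, hb⟩ := exists_gt_countable hc (countable_singleton ξ)
    exact ⟨b, hb ξ rfl⟩
  choose nx hnx using hnx
  refine ⟨fun ξ => A.fn (h (nx ξ)) ξ, fun δ hδ => ⟨A.tr δ hδ (h δ), ?_, fun ξ hξ => ?_⟩⟩
  · rw [A.ht_tr, min_eq_left (hht δ hδ)]
  · rw [A.fn_tr δ hδ _ ξ hξ]
    show A.fn (h δ) ξ = A.fn (h (nx ξ)) ξ
    rcases le_total δ (nx ξ) with h1 | h1
    · exact hagree _ _ hδ h1 ξ hξ
    · exact (hagree _ _ (lt_of_le_of_lt bot_le (hnx ξ)) h1 ξ (hnx ξ)).symm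

end Cof

end Pool.Agent.T9h92.Roth
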