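import Mathlib

/-!
Coherent finite-to-one functions on the countable ordinals and the resulting
Aronszajn tree, in an abstract well-order with countable initial segments.
-/

set_option linter.unusedSectionVars false

open Set

namespace Pool.Agent.T9h92.Roth

section Base

variable {W : Type} [LinearOrder W] [WellFoundedLT W] [OrderBot W] [Uncountable W]

theorem exists_gt_countable (hc : ∀ a : W, (Iio a).Countable) {S : Set W} (hS : S.Countable) :
    ∃ b : W, ∀ a ∈ S, a < b := by
  have h1 : (⋃ a ∈ S, Iic a).Countable := by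
    refine hS.biUnion fun a _ => ?_
    have : Iic a = insert a (Iio a) := by
      ext x; simp [le_iff_eq_or_lt]
    rw [this]
    exact (hc a).insert a
  have h2 : (⋃ a ∈ S, Iic a) ≠ univ := by
    intro h
    rw [h] at h1
    exact Set.not_countable_univ h1
  obtain ⟨b, hb⟩ := (Set.ne_univ_iff_exists_notMem _).1 h2
  refine ⟨b, fun a ha => ?_⟩
  by_contra hab
  exact hb (mem_biUnion ha (not_lt.1 hab))

/-- closure points of a function -/
theorem exists_closed (hc : ∀ a : W, (Iio a).Countable) (F : W → W) :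
    ∃ δ : W, ⊥ < δ ∧ ∀ α < δ, F α ≤ δ := by
  have hI : ∀ a : W, (Iic a).Countable := by
    intro a
    have : Iic a = insert a (Iio a) := by
      ext x; simp [le_iff_eq_or_lt]
    rw [this]
    exact (hc a).insert a
  have hstep : ∀ a : W, ∃ b : W, a < b ∧ ∀ α ≤ a, F α < b := by
    intro a
    obtain ⟨b, hb⟩ := exists_gt_countable hc (S := insert a (F '' Iic a))
      (((hI a).image F).insert a)
    exact ⟨b, hb a (mem_insert _ _), fun α hα => hb _ (mem_insert_of_mem _ ⟨α, hα, rfl⟩)⟩
  choose nx hnx1 hnx2 using hstep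
  let a : ℕ → W := fun k => Nat.rec (⊥ : W) (fun _ x => nx x) k
  have ha : ∀ k, a (k + 1) = nx (a k) := fun k => rfl
  obtain ⟨b, hb⟩ := exists_gt_countable hc (countable_range a)
  have hne : {b : W | ∀ k, a k ≤ b}.Nonempty := ⟨b, fun k => (hb _ (mem_range_self k)).le⟩
  let δ := wellFounded_lt.min {b : W | ∀ k, a k ≤ b} hne
  have hδ : ∀ k, a k ≤ δ := wellFounded_lt.min_mem _ hne
  refine ⟨δ, ?_, ?_⟩
  · have h1 : a 0 < a 1 := hnx1 _
    exact lt_of_le_of_lt bot_le (lt_of_lt_of_le h1 (hδ 1))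
  · intro α hα
    have : ¬ (α ∈ {b : W | ∀ k, a k ≤ b}) := fun h => wellFounded_lt.not_lt_min _ h hα
    simp only [mem_ofPred_eq, not_forall, not_le] at this
    obtain ⟨k, hk⟩ := this
    have h3 := hnx2 (a k) α hk.le
    have h4 : F α < a (k + 1) := h3
    exact h4.le.trans (hδ (k + 1))

/-- ladders -/
theorem exists_ladder (hc : ∀ a : W, (Iio a).Countable) :
    ∃ g : W → ℕ → W, ∀ β, β ≠ ⊥ → (∀ n, g β n < β) ∧ (∀ ξ < β, ∃ n, ξ ≤ g β n) := by
  have : ∀ β : W, ∃ f : ℕ → W, β ≠ ⊥ → (∀ n, f n < β) ∧ (∀ ξ < β, ∃ n, ξ ≤ f n) := by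
    intro β
    by_cases hβ : β = ⊥
    · exact ⟨fun _ => ⊥, fun h => absurd hβ h⟩
    · obtain ⟨f, hf⟩ := (hc β).exists_eq_range ⟨⊥, bot_lt_iff_ne_bot.2 hβ⟩
      refine ⟨f, fun _ => ⟨fun n => ?_, fun ξ hξ => ?_⟩⟩
      · have : f n ∈ Iio β := by rw [hf]; exact mem_range_self n
        exact this
      · have : ξ ∈ Iio β := hξ
        rw [hf] at this
        obtain ⟨n, hn⟩ := this
        exact ⟨n, hn.ge⟩
  choose g hg using this
  exact ⟨g, hg⟩

/-- a coherent family of finite-to-one functions -/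
theorem exists_coherent (hc : ∀ a : W, (Iio a).Countable) :
    ∃ e : W → W → ℕ, (∀ β m, {ξ | ξ < β ∧ e β ξ ≤ m}.Finite) ∧
      (∀ α β, α ≤ β → {ξ | ξ < α ∧ e α ξ ≠ e β ξ}.Finite) := by
  classical
  obtain ⟨g, hg⟩ := exists_ladder hc
  let n : W → W → ℕ := fun β ξ => sInf {n | ξ ≤ g β n}
  have hn1 : ∀ β ξ, ξ < β → ξ ≤ g β (n β ξ) := by
    intro β ξ h
    have hβ : β ≠ ⊥ := (lt_of_le_of_lt bot_le h).ne'
    exact Nat.sInf_mem (s := {n | ξ ≤ g β n}) ((hg β hβ).2 ξ h)
  have hn2 : ∀ β ξ k, ξ ≤ g β k → n β ξ ≤ k := fun β ξ k h => Nat.sInf_le h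
  let F : ∀ β : W, (∀ γ, γ < β → W → ℕ) → W → ℕ := fun β rec ξ =>
    if h : g β (n β ξ) < β then
      (if ξ = g β (n β ξ) then n β ξ else max (n β ξ) (rec (g β (n β ξ)) h ξ)) else 0
  obtain ⟨e, he⟩ : ∃ e : W → W → ℕ, ∀ β, e β = F β (fun γ _ => e γ) :=
    ⟨wellFounded_lt.fix F, fun β => wellFounded_lt.fix_eq F β⟩
  have hval : ∀ β ξ, ξ < β → e β ξ =
      if ξ = g β (n β ξ) then n β ξ else max (n β ξ) (e (g β (n β ξ)) ξ) := by
    intro β ξ h
    have hβ : β ≠ ⊥ := (lt_of_le_of_lt bot_le h).ne'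
    rw [he]
    simp only [F]
    rw [dif_pos ((hg β hβ).1 _)]
  have hge : ∀ β ξ, ξ < β → n β ξ ≤ e β ξ := by
    intro β ξ h
    rw [hval β ξ h]
    split_ifs
    · exact le_rfl
    · exact le_max_left _ _
  have hfin : ∀ β m, {ξ | ξ < β ∧ e β ξ ≤ m}.Finite := by
    intro β
    induction β using WellFoundedLT.induction with
    | ind β ih =>
      intro m
      by_cases hβ : β = ⊥
      · subst hβ
        convert Set.finite_empty
        ext ξ; simp
      have hfinU : (⋃ k ∈ Finset.range (m + 1),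
          ({g β k} ∪ {ξ | ξ < g β k ∧ e (g β k) ξ ≤ m})).Finite := by
        refine Set.Finite.biUnion (Finset.finite_toSet _) fun k _ => ?_
        exact (finite_singleton _).union (ih (g β k) ((hg β hβ).1 k) m)
      refine hfinU.subset ?_
      rintro ξ ⟨h1, h2⟩
      have h3 : n β ξ ≤ m := (hge β ξ h1).trans h2
      refine mem_biUnion (x := n β ξ) (by simpa using Nat.lt_succ_of_le h3) ?_
      by_cases h4 : ξ = g β (n β ξ)
      · left; exact h4
      · right
        refine ⟨lt_of_le_of_ne (hn1 β ξ h1) h4, ?_⟩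
        rw [hval β ξ h1, if_neg h4] at h2
        exact (le_max_right _ _).trans h2
  refine ⟨e, hfin, ?_⟩
  have key : ∀ β α, α ≤ β → {ξ | ξ < α ∧ e α ξ ≠ e β ξ}.Finite := by
    intro β
    induction β using WellFoundedLT.induction with
    | ind β ih =>
      intro α hαβ
      rcases hαβ.eq_or_lt with rfl | hlt
      · convert Set.finite_empty
        ext ξ; simp
      have hβ : β ≠ ⊥ := (lt_of_le_of_lt bot_le hlt).ne'
      have hfinU : (⋃ k ∈ Finset.range (n β α + 1),
          ({g β k} ∪ {ξ | ξ < g β k ∧ e (g β k) ξ ≤ k} ∪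
            {ξ | (ξ < α ∧ ξ < g β k) ∧ e (g β k) ξ ≠ e α ξ})).Finite := by
        refine Set.Finite.biUnion (Finset.finite_toSet _) fun k _ => ?_
        refine ((finite_singleton _).union (hfin (g β k) k)).union ?_
        rcases le_total (g β k) α with h | h
        · refine (ih α hlt (g β k) h).subset ?_
          rintro ξ ⟨⟨_, h2⟩, h3⟩
          exact ⟨h2, h3⟩
        · refine (ih (g β k) ((hg β hβ).1 k) α h).subset ?_
          rintro ξ ⟨⟨h1, _⟩, h3⟩
          exact ⟨h1, h3.symm⟩
      refine hfinU.subset ?_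
      rintro ξ ⟨h1, h2⟩
      have hξβ : ξ < β := h1.trans hlt
      have h3 : n β ξ ≤ n β α := hn2 _ _ _ (h1.le.trans (hn1 β α hlt))
      refine mem_biUnion (x := n β ξ) (by simpa using Nat.lt_succ_of_le h3) ?_
      by_cases h4 : ξ = g β (n β ξ)
      · left; left; exact h4
      · have h5 : ξ < g β (n β ξ) := lt_of_le_of_ne (hn1 β ξ hξβ) h4
        by_cases h6 : e (g β (n β ξ)) ξ ≤ n β ξ
        · left; right; exact ⟨h5, h6⟩
        · right
          refine ⟨⟨h1, h5⟩, ?_⟩
          rw [hval β ξ hξβ, if_neg h4, max_eq_right (not_le.1 h6).le] at h2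
          exact h2.symm
  exact fun α β h => key β α h

end Base

/-- A tree of height omega one of functions into the naturals, with countable
levels, closed under initial segments and without a branch through all levels.
A node `t` is coded by a function which is nonzero exactly below its height. -/
structure ATree (W : Type) [LinearOrder W] [OrderBot W] where
  /-- the nodes -/
  T : Type
  /-- the function of a node -/
  fn : T → W → ℕ
  /-- the height of a node -/
  ht : T → W
  inj : Function.Injective fn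
  pos : ∀ t, ⊥ < ht t
  zero : ∀ t ξ, fn t ξ = 0 ↔ ht t ≤ ξ
  trunc : ∀ t δ, ⊥ < δ → ∃ s, ht s = min δ (ht t) ∧ ∀ ξ < δ, fn s ξ = fn t ξ
  level : ∀ δ, {t | ht t = δ}.Countable
  exists_ht : ∀ δ, ⊥ < δ → ∃ t, ht t = δ
  no_branch : ¬ ∃ b : W → ℕ, ∀ δ, ⊥ < δ → ∃ t, ht t = δ ∧ ∀ ξ < δ, fn t ξ = b ξ

section Tree

variable {W : Type} [LinearOrder W] [WellFoundedLT W] [OrderBot W] [Uncountable W]

/-- nodes of the coherent tree -/
def IsNode (e : W → W → ℕ) (t : W → ℕ) (δ : W) : Prop :=
  ⊥ < δ ∧ (∀ ξ, t ξ = 0 ↔ δ ≤ ξ) ∧ {ξ | ξ < δ ∧ t ξ ≠ e δ ξ + 1}.Finite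

theorem IsNode.unique {e : W → W → ℕ} {t : W → ℕ} {δ δ' : W} (h : IsNode e t δ)
    (h' : IsNode e t δ') : δ = δ' := by
  apply le_antisymm
  · exact (h.2.1 _).1 ((h'.2.1 _).2 le_rfl)
  · exact (h'.2.1 _).1 ((h.2.1 _).2 le_rfl)

theorem exists_ATree (hc : ∀ a : W, (Iio a).Countable) : Nonempty (ATree W) := by
  classical
  obtain ⟨e, he1, he2⟩ := exists_coherent hc
  let T : Type := {t : W → ℕ // ∃ δ, IsNode e t δ}
  let ht : T → W := fun t => t.2.choose
  have hht : ∀ t : T, IsNode e t.1 (ht t) := fun t => t.2.choose_spec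
  have hht' : ∀ (t : T) δ, IsNode e t.1 δ → ht t = δ := fun t δ h => (hht t).unique h
  refine ⟨{ T := T, fn := Subtype.val, ht := ht, inj := Subtype.val_injective,
            pos := fun t => (hht t).1, zero := fun t ξ => (hht t).2.1 ξ,
            trunc := ?_, level := ?_, exists_ht := ?_, no_branch := ?_ }⟩
  · intro t δ hδ
    rcases le_total (ht t) δ with h | h
    · exact ⟨t, (min_eq_right h).symm, fun ξ _ => rfl⟩
    · let s : W → ℕ := fun ξ => if ξ < δ then t.1 ξ else 0
      have hs : IsNode e s δ := by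
        refine ⟨hδ, fun ξ => ?_, ?_⟩
        · simp only [s]
          split_ifs with h1
          · rw [(hht t).2.1 ξ]
            constructor
            · intro h2; exact absurd (h1.trans_le h) (not_lt.2 h2)
            · intro h2; exact absurd h1 (not_lt.2 h2)
          · simpa using h1
        · refine ((hht t).2.2.union (he2 δ (ht t) h)).subset ?_
          rintro ξ ⟨h1, h2⟩
          simp only [s, if_pos h1] at h2
          by_cases h3 : t.1 ξ = e (ht t) ξ + 1
          · right
            refine ⟨h1, fun h4 => h2 ?_⟩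
            rw [h3, h4]
          · left; exact ⟨h1.trans_le h, h3⟩
      refine ⟨⟨s, δ, hs⟩, ?_, fun ξ hξ => ?_⟩
      · rw [min_eq_left h]
        exact hht' ⟨s, δ, hs⟩ δ hs
      · simp only [s, if_pos hξ]
  · intro δ
    have hcs : Countable (Iio δ) := (hc δ).to_subtype
    let Φ : {t : T | ht t = δ} → (Iio δ →₀ ℕ) := fun t =>
      { support := by
          have hf : {ξ : Iio δ | t.1.1 ξ.1 ≠ e δ ξ.1 + 1}.Finite := by
            have h1 := (hht t.1).2.2
            rw [show ht t.1 = δ from t.2] at h1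
            refine Set.Finite.of_finite_image (f := Subtype.val) (h1.subset ?_)
              Subtype.val_injective.injOn
            rintro _ ⟨ξ, hξ, rfl⟩
            exact ⟨ξ.2, hξ⟩
          exact hf.toFinset
        toFun := fun ξ => if t.1.1 ξ.1 = e δ ξ.1 + 1 then 0 else t.1.1 ξ.1 + 1
        mem_support_toFun := by
          intro ξ
          simp }
    have hΦ : Function.Injective Φ := by
      intro t t' h
      apply Subtype.ext
      apply Subtype.ext
      funext ξ
      by_cases hξ : ξ < δ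
      · have h1 := DFunLike.congr_fun h ⟨ξ, hξ⟩
        simp only [Φ, Finsupp.coe_mk] at h1
        split_ifs at h1 with h2 h3 h3
        · rw [h2, h3]
        · omega
      · have h2 := ((hht t.1).2.1 ξ).2 (by rw [show ht t.1 = δ from t.2]; exact not_lt.1 hξ)
        have h3 := ((hht t'.1).2.1 ξ).2 (by rw [show ht t'.1 = δ from t'.2]; exact not_lt.1 hξ)
        rw [h2, h3]
    have : Countable {t : T | ht t = δ} := hΦ.countable
    exact Set.countable_coe_iff.1 this
  · intro δ hδ
    let s : W → ℕ := fun ξ => if ξ < δ then e δ ξ + 1 else 0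
    have hs : IsNode e s δ := by
      refine ⟨hδ, fun ξ => ?_, ?_⟩
      · simp only [s]
        split_ifs with h1
        · simpa using h1
        · simpa using h1
      · convert Set.finite_empty
        ext ξ
        simp only [s, mem_ofPred_eq, mem_empty_iff_false, iff_false, not_and, not_not]
        intro h; rw [if_pos h]
    exact ⟨⟨s, δ, hs⟩, hht' ⟨s, δ, hs⟩ δ hs⟩
  · rintro ⟨b, hb⟩
    have hb2 : ∀ δ, ⊥ < δ → {ξ | ξ < δ ∧ b ξ ≠ e δ ξ + 1}.Finite := by
      intro δ hδ
      obtain ⟨t, ht1, ht2⟩ := hb δ hδ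
      have h1 := (hht t).2.2
      rw [ht1] at h1
      refine h1.subset ?_
      rintro ξ ⟨h2, h3⟩
      exact ⟨h2, by rw [ht2 ξ h2]; exact h3⟩
    obtain ⟨n, hn⟩ : ∃ n, ¬ (b ⁻¹' {n}).Countable := by
      by_contra hcon
      push Not at hcon
      have h1 : (⋃ n, b ⁻¹' {n}).Countable := countable_iUnion hcon
      have h2 : (⋃ n, b ⁻¹' {n}) = univ := by
        ext x; simp
      rw [h2] at h1
      exact Set.not_countable_univ h1
    have hinf : Set.Infinite (b ⁻¹' {n}) := fun h => hn h.countable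
    let f : ℕ → W := fun k => (hinf.natEmbedding _ k).1
    have hfinj : Function.Injective f := fun x y h =>
      (hinf.natEmbedding _).injective (Subtype.ext h)
    have hfb : ∀ k, b (f k) = n := fun k => (hinf.natEmbedding _ k).2
    obtain ⟨δ, hδ⟩ := exists_gt_countable hc (countable_range f)
    have hδ0 : ⊥ < δ := lt_of_le_of_lt bot_le (hδ _ (mem_range_self 0))
    have hfinU := (he1 δ n).union (hb2 δ hδ0)
    refine Set.infinite_range_of_injective hfinj (hfinU.subset ?_)
    rintro _ ⟨k, rfl⟩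
    have h1 : f k < δ := hδ _ (mem_range_self k)
    by_cases h2 : b (f k) = e δ (f k) + 1
    · left
      refine ⟨h1, ?_⟩
      have := hfb k
      omega
    · right; exact ⟨h1, h2⟩

end Tree

end Pool.Agent.T9h92.Roth
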